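import Pool.Agent.Helper60.PF.Defs

/-!
Packet CLASSES: a finite direction colouring of the Euclidean space.
-/

set_option autoImplicit false

namespace Pool.Agent.Helper61.PF

open Pool.Agent.Helper60.PF

theorem classes : Classes := by
  classical
  intro d ε hε
  have hc : IsCompact (Metric.sphere (0 : E d) 1) := isCompact_sphere 0 1
  obtain ⟨t, -, htf, ht⟩ := hc.finite_cover_balls (e := ε / 2) (by positivity)
  have hpick : ∀ u : E d, u ≠ 0 → ∃ y ∈ htf.toFinset, dist (‖u‖⁻¹ • u) y < ε / 2 := by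
    intro u hu
    have h1 : (‖u‖⁻¹ • u) ∈ Metric.sphere (0 : E d) 1 := by
      rw [mem_sphere_zero_iff_norm, norm_smul, norm_inv, norm_norm]
      exact inv_mul_cancel₀ (norm_ne_zero_iff.mpr hu)
    have h2 := ht h1
    simp only [Set.mem_iUnion, Metric.mem_ball] at h2
    obtain ⟨y, hy, h3⟩ := h2
    exact ⟨y, by simpa using hy, h3⟩
  choose! f hf1 hf2 using hpick
  refine ⟨htf.toFinset.card, fun u => if h : u ≠ 0 then
    (htf.toFinset.equivFin ⟨f u, hf1 u h⟩).castSucc else Fin.last _, ?_⟩
  intro u w hu hw huw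
  simp only [ne_eq, hu, not_false_eq_true, dite_true, hw] at huw
  have h1 := htf.toFinset.equivFin.injective (Fin.castSucc_injective _ huw)
  have h2 : f u = f w := by simpa using h1
  have h3 := hf2 u hu
  have h4 := hf2 w hw
  rw [← h2] at h4
  rw [← dist_eq_norm]
  have h5 := dist_triangle_right (‖u‖⁻¹ • u) (‖w‖⁻¹ • w) (f u)
  linarith

end Pool.Agent.Helper61.PF
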